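import Pool.Agent.Run7.h74.DW.Iface

set_option autoImplicit false

/-!
Project DW (leader helper74): piece H0, the shift of the contour to the right of a weighted power of the factor of the
functional equation against an exponential.
-/

namespace Pool.Agent.Run7.h382.DW

open Filter Topology MeasureTheory Complex
open Pool.Agent.Run7.h74.SC (ch ph ch_diff ch_bound)
open Pool.Agent.Run7.h74.DW
open Pool.Agent.H306R2.SM (cl)

noncomputable section

/-- the weight as an analytic function -/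
def Wa (a b : ℝ) (s : ℂ) : ℂ := 4 * (-(I * (s - 1 / 2)) - a) * (b + I * (s - 1 / 2)) / ((b - a : ℝ) : ℂ) ^ 2

/-- the analytic integrand -/
def Fa (j : ℕ) (a b L : ℝ) (s : ℂ) : ℂ := Wa a b s * (ch s ^ j * cexp ((s - 1 / 2) * (L : ℂ)))

lemma Fa_left (j : ℕ) (a b L t : ℝ) :
    Fa j a b L (((1 / 2 : ℝ) : ℂ) + t * I) = (wt a b t : ℂ) * (ph t ^ j * cexp (I * (t * L : ℝ))) := by
  have h1 : ((1 / 2 : ℝ) : ℂ) + t * I = cl t := by
    unfold cl; push_cast; ring
  have h2 : ((1 / 2 : ℝ) : ℂ) + t * I - 1 / 2 = t * I := by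
    push_cast; ring
  unfold Fa ph
  rw [← h1]
  congr 1
  · unfold Wa wt
    rw [h2]
    have e : I * ((t : ℂ) * I) = -t := by
      have := I_mul_I
      linear_combination (t : ℂ) * this
    rw [e]
    push_cast
    ring
  · congr 2
    rw [h2]
    push_cast
    ring

lemma Fa_diff (j : ℕ) (a b L : ℝ) {s : ℂ} (hs : s.im ≠ 0) : DifferentiableAt ℂ (Fa j a b L) s := by
  unfold Fa Wa
  refine DifferentiableAt.mul (by fun_prop) (DifferentiableAt.mul ((ch_diff hs).pow j) (by fun_prop))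

/-- the two linear factors of the weight -/
lemma lin1 (s : ℂ) (a : ℝ) (h1 : 1 / 2 ≤ s.re) (h2 : s.re ≤ 3) : ‖-(I * (s - 1 / 2)) - a‖ ≤ |s.im - a| + 5 / 2 := by
  have e : -(I * (s - 1 / 2)) - a = ((s.im - a : ℝ) : ℂ) + ((-(s.re - 1 / 2) : ℝ) : ℂ) * I := by
    apply Complex.ext <;> simp
  rw [e]
  refine (norm_add_le _ _).trans (add_le_add ?_ ?_)
  · rw [Complex.norm_real, Real.norm_eq_abs]
  · rw [norm_mul, Complex.norm_real, Complex.norm_I, mul_one, Real.norm_eq_abs, abs_neg, abs_of_nonneg (by linarith)]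
    linarith

lemma lin2 (s : ℂ) (b : ℝ) (h1 : 1 / 2 ≤ s.re) (h2 : s.re ≤ 3) : ‖b + I * (s - 1 / 2)‖ ≤ |s.im - b| + 5 / 2 := by
  have := lin1 s b h1 h2
  rwa [show -(I * (s - 1 / 2)) - b = -(b + I * (s - 1 / 2)) by ring, norm_neg] at this

lemma Wa_norm (a b : ℝ) (hab : 0 < b - a) (s : ℂ) (h1 : 1 / 2 ≤ s.re) (h2 : s.re ≤ 3) :
    ‖Wa a b s‖ ≤ 4 * (|s.im - a| + 5 / 2) * (|s.im - b| + 5 / 2) / (b - a) ^ 2 := by
  unfold Wa
  rw [norm_div, norm_mul, norm_mul, norm_pow, Complex.norm_real, Real.norm_eq_abs, abs_of_pos hab]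
  have := lin1 s a h1 h2
  have := lin2 s b h1 h2
  have e : ‖(4 : ℂ)‖ = 4 := by simp
  rw [e]
  gcongr

/-- the exponential -/
lemma ex_norm (L : ℝ) (s : ℂ) (h1 : 1 / 2 ≤ s.re) (h2 : s.re ≤ 3) :
    ‖cexp ((s - 1 / 2) * (L : ℂ))‖ ≤ 1 + Real.exp (5 / 2 * L) := by
  have e : ((s - 1 / 2) * (L : ℂ)).re = (s.re - 1 / 2) * L := by simp
  rw [Complex.norm_exp, e]
  rcases le_or_gt 0 L with h | h
  · have : Real.exp ((s.re - 1 / 2) * L) ≤ Real.exp (5 / 2 * L) := by
      apply Real.exp_le_exp.mpr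
      nlinarith
    linarith
  · have : Real.exp ((s.re - 1 / 2) * L) ≤ 1 := by
      rw [Real.exp_le_one_iff]
      nlinarith
    have := Real.exp_pos (5 / 2 * L)
    linarith

lemma ex_right (L : ℝ) (s : ℂ) (h1 : s.re = 3) : ‖cexp ((s - 1 / 2) * (L : ℂ))‖ = Real.exp (5 / 2 * L) := by
  have e : ((s - 1 / 2) * (L : ℂ)).re = (s.re - 1 / 2) * L := by simp
  rw [Complex.norm_exp, e, h1]
  norm_num

theorem t_H0 : S_H0 := by
  intro j hj
  obtain ⟨C, hC, hb⟩ := ch_bound
  have hC0 : 0 < C := by linarith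
  refine ⟨200 * C ^ j, by positivity, ?_⟩
  intro T a b x hT hadm hx
  obtain ⟨ha1, hab, hb3⟩ := hadm
  have hT0 : 0 < T := by linarith
  set L : ℝ := Real.log x with hL
  set B : ℝ := b - a with hB
  have hB1 : T / 2 ≤ B := by rw [hB]; linarith
  have hB5 : 5 ≤ B := by linarith
  have hB0 : 0 < B := by linarith
  have hB2 : B ≤ 5 / 2 * T := by rw [hB]; linarith
  have hxe : x ^ (5 / 2 : ℝ) = Real.exp (5 / 2 * L) := by
    rw [Real.rpow_def_of_pos hx, hL, mul_comm]
  set E : ℝ := Real.exp (5 / 2 * L) with hE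
  have hE0 : 0 < E := Real.exp_pos _
  have hCj : 0 < C ^ j := by positivity
  -- Cauchy
  have hH := Complex.integral_boundary_rect_eq_zero_of_differentiableOn (Fa j a b L)
    (⟨1 / 2, a⟩ : ℂ) (⟨3, b⟩ : ℂ) (by
      intro s hs
      rw [Complex.mem_reProdIm, Set.uIcc_of_le (by norm_num), Set.uIcc_of_le (by simpa using by linarith)] at hs
      have h := hs.2.1
      simp only at h
      exact (Fa_diff j a b L (by intro h0; rw [h0] at h; linarith)).differentiableWithinAt)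
  simp only at hH
  simp_rw [Fa_left] at hH
  -- the horizontal sides
  have hor : ∀ y : ℝ, (y = a ∨ y = b) → ‖∫ σ in (1 / 2 : ℝ)..3, Fa j a b L (σ + y * I)‖ ≤ 75 * C ^ j * (E + 1 / T) := by
    intro y hy
    have hpt : ∀ σ ∈ Set.uIoc (1 / 2 : ℝ) 3, ‖Fa j a b L (σ + y * I)‖ ≤ 30 * C ^ j * (E + 1 / T) := by
      intro σ hσ
      rw [Set.uIoc_of_le (by norm_num)] at hσ
      have e1 : ((σ : ℂ) + y * I).re = σ := by simp
      have e2 : ((σ : ℂ) + y * I).im = y := by simp
      have k1 : 1 / 2 ≤ ((σ : ℂ) + y * I).re := by rw [e1]; exact hσ.1.le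
      have k2 : ((σ : ℂ) + y * I).re ≤ 3 := by rw [e1]; exact hσ.2
      have k3 : 1 ≤ ((σ : ℂ) + y * I).im := by
        rw [e2]
        rcases hy with h | h
        · linarith
        · linarith
      have w1 := Wa_norm a b (by rw [← hB]; exact hB0) _ k1 k2
      rw [e2] at w1
      have w2 : 4 * (|y - a| + 5 / 2) * (|y - b| + 5 / 2) / (b - a) ^ 2 ≤ 30 / T := by
        have w3 : 4 * (|y - a| + 5 / 2) * (|y - b| + 5 / 2) = 10 * (B + 5 / 2) := by
          rcases hy with rfl | rfl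
          · rw [sub_self, abs_zero, abs_sub_comm, ← hB, abs_of_pos hB0]
            ring
          · rw [sub_self, abs_zero, ← hB, abs_of_pos hB0]
            ring
        rw [w3, ← hB, div_le_div_iff₀ (by positivity) hT0]
        nlinarith
      have c1 := (hb _ k1 k2 k3).1
      have x1 := ex_norm L _ k1 k2
      unfold Fa
      rw [norm_mul, norm_mul, norm_pow]
      calc ‖Wa a b (σ + y * I)‖ * (‖ch (σ + y * I)‖ ^ j * ‖cexp (((σ : ℂ) + y * I - 1 / 2) * (L : ℂ))‖)
          ≤ (30 / T) * (C ^ j * (1 + E)) := by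
            have := w1.trans w2
            gcongr
        _ = 30 * C ^ j * (E * (1 / T) + 1 / T) := by ring
        _ ≤ 30 * C ^ j * (E + 1 / T) := by
            gcongr
            have : 1 / T ≤ 1 := by
              rw [div_le_one hT0]; linarith
            calc E * (1 / T) ≤ E * 1 := by gcongr
              _ = E := mul_one _
    refine (intervalIntegral.norm_integral_le_of_norm_le_const hpt).trans ?_
    have : |(3 : ℝ) - 1 / 2| = 5 / 2 := by
      rw [abs_of_nonneg] <;> norm_num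
    rw [this]
    linarith
  -- the right side
  have hri : ‖∫ y in a..b, Fa j a b L (((3 : ℝ) : ℂ) + y * I)‖ ≤ 45 * C ^ j * E := by
    have hpt : ∀ y ∈ Set.uIoc a b, ‖Fa j a b L (((3 : ℝ) : ℂ) + y * I)‖ ≤ 18 * C ^ j * E / T := by
      intro y hy
      rw [Set.uIoc_of_le (by linarith)] at hy
      have e1 : (((3 : ℝ) : ℂ) + y * I).re = 3 := by simp
      have e2 : (((3 : ℝ) : ℂ) + y * I).im = y := by simp
      have k1 : 1 / 2 ≤ (((3 : ℝ) : ℂ) + y * I).re := by rw [e1]; norm_num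
      have k2 : (((3 : ℝ) : ℂ) + y * I).re ≤ 3 := by rw [e1]
      have hyT : T / 2 ≤ y := by linarith [hy.1]
      have k3 : 1 ≤ (((3 : ℝ) : ℂ) + y * I).im := by rw [e2]; linarith
      have w1 := Wa_norm a b (by rw [← hB]; exact hB0) _ k1 k2
      rw [e2] at w1
      have w2 : 4 * (|y - a| + 5 / 2) * (|y - b| + 5 / 2) / (b - a) ^ 2 ≤ 9 := by
        have w3 : |y - a| ≤ B := by rw [abs_le]; constructor <;> linarith [hy.1, hy.2]
        have w4 : |y - b| ≤ B := by rw [abs_le]; constructor <;> linarith [hy.1, hy.2]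
        rw [← hB, div_le_iff₀ (by positivity)]
        calc 4 * (|y - a| + 5 / 2) * (|y - b| + 5 / 2) ≤ 4 * (B + B / 2) * (B + B / 2) := by
              gcongr
          _ = 9 * B ^ 2 := by ring
      obtain ⟨c1, c2⟩ := hb _ k1 k2 k3
      have c3 := c2 e1
      rw [e2] at c3
      have hcj : ‖ch (((3 : ℝ) : ℂ) + y * I)‖ ^ j ≤ C ^ j * (2 / T) := by
        obtain ⟨m, rfl⟩ : ∃ m, j = m + 1 := ⟨j - 1, by omega⟩
        rw [pow_succ, pow_succ, mul_assoc]
        refine mul_le_mul (pow_le_pow_left₀ (norm_nonneg _) c1 m) ?_ (norm_nonneg _) (by positivity)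
        refine c3.trans ?_
        rw [div_eq_mul_inv]
        refine mul_le_mul_of_nonneg_left ?_ hC0.le
        rw [inv_eq_one_div, div_le_div_iff₀ (by linarith) hT0]
        linarith
      have x1 := ex_right L _ e1
      unfold Fa
      rw [norm_mul, norm_mul, norm_pow, x1]
      calc ‖Wa a b (((3 : ℝ) : ℂ) + y * I)‖ * (‖ch (((3 : ℝ) : ℂ) + y * I)‖ ^ j * E)
          ≤ 9 * ((C ^ j * (2 / T)) * E) := by
            have := w1.trans w2
            gcongr
        _ = 18 * C ^ j * E / T := by ring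
    refine (intervalIntegral.norm_integral_le_of_norm_le_const hpt).trans ?_
    rw [← hB, abs_of_pos hB0, div_mul_eq_mul_div, div_le_iff₀ hT0]
    have : 0 < 18 * C ^ j * E := by positivity
    nlinarith
  have h1 := hor a (Or.inl rfl)
  have h2 := hor b (Or.inr rfl)
  rw [hxe]
  set J : ℂ := ∫ t in a..b, (wt a b t : ℂ) * (ph t ^ j * cexp (I * (t * L : ℝ))) with hJ
  set X1 : ℂ := ∫ σ in (1 / 2 : ℝ)..3, Fa j a b L (σ + a * I) with hX1
  set X2 : ℂ := ∫ σ in (1 / 2 : ℝ)..3, Fa j a b L (σ + b * I) with hX2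
  set X3 : ℂ := ∫ y in a..b, Fa j a b L (((3 : ℝ) : ℂ) + y * I) with hX3
  have hJe : I * J = X1 - X2 + I * X3 := by
    simp only [smul_eq_mul] at hH
    linear_combination -hH
  have hn : ‖J‖ = ‖X1 - X2 + I * X3‖ := by
    rw [← hJe, norm_mul, Complex.norm_I, one_mul]
  rw [hn]
  have h3 : ‖I * X3‖ ≤ 45 * C ^ j * E := by
    rw [norm_mul, Complex.norm_I, one_mul]
    exact hri
  have hT1 : 0 < 1 / T := by positivity
  calc ‖X1 - X2 + I * X3‖ ≤ ‖X1‖ + ‖X2‖ + ‖I * X3‖ := (norm_add_le _ _).trans (add_le_add (norm_sub_le _ _) le_rfl)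
    _ ≤ 75 * C ^ j * (E + 1 / T) + 75 * C ^ j * (E + 1 / T) + 45 * C ^ j * E := by gcongr
    _ ≤ 200 * C ^ j * (E + 1 / T) := by
        have : 0 < C ^ j * E := by positivity
        have : 0 < C ^ j * (1 / T) := by positivity
        nlinarith

end

end Pool.Agent.Run7.h382.DW
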